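import Mathlib

/-!
# Infinitely many maximal free submonoids inside an FTR language

The language of all words over `{a, b, c}` without a factor in `b c⁺ a` is factorial, transitive
and rational, and contains infinitely many maximal free submonoids.
-/

namespace Pool.Agent.Results.MP_df6457_lc.InfManyMaxFree

open FreeMonoid

/-- `L` is factorial: it contains every factor of each of its words. -/
def Factorial {A : Type} (L : Language A) : Prop :=
  ∀ u v w : List A, u ++ v ++ w ∈ L → v ∈ L

/-- `L` is transitive: for `u, v ∈ L` there is a word `w` with `u w v ∈ L`. -/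
def Transitive {A : Type} (L : Language A) : Prop :=
  ∀ u ∈ L, ∀ v ∈ L, ∃ w : List A, u ++ w ++ v ∈ L

/-- The minimal generating set `(M \ {ε}) \ (M \ {ε})²` of a submonoid `M` of `A*`. -/
def minGen {A : Type} (M : Submonoid (FreeMonoid A)) : Set (FreeMonoid A) :=
  {w | w ∈ M ∧ w ≠ 1 ∧ ¬ ∃ u v : FreeMonoid A, u ∈ M ∧ u ≠ 1 ∧ v ∈ M ∧ v ≠ 1 ∧ w = u * v}

/-- `M` is free: every element of `M` factors uniquely as a product of elements of the
minimal generating set. -/
def IsFreeSub {A : Type} (M : Submonoid (FreeMonoid A)) : Prop :=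
  ∀ w ∈ M, ∃! l : List (FreeMonoid A), (∀ x ∈ l, x ∈ minGen M) ∧ l.prod = w

/-- The submonoid `M` of `A*` is contained in the language `L`. -/
def Inside {A : Type} (M : Submonoid (FreeMonoid A)) (L : Language A) : Prop :=
  ∀ w ∈ M, FreeMonoid.toList w ∈ L

/-- `M` is an `L`-maximal free submonoid. -/
def IsMaxFree {A : Type} (L : Language A) (M : Submonoid (FreeMonoid A)) : Prop :=
  IsFreeSub M ∧ Inside M L ∧
    ∀ N : Submonoid (FreeMonoid A), IsFreeSub N → M ≤ N → Inside N L → N = M

section Stable

variable {A : Type}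

/-- Stability (Schützenberger's condition). -/
def Stable (M : Submonoid (FreeMonoid A)) : Prop :=
  ∀ u v w : FreeMonoid A, u ∈ M → v ∈ M → u * w ∈ M → w * v ∈ M → w ∈ M

theorem len_mul (u v : FreeMonoid A) : (u * v).length = u.length + v.length :=
  FreeMonoid.length_mul u v

theorem eq_one_of_len {u : FreeMonoid A} (h : u.length = 0) : u = 1 :=
  FreeMonoid.length_eq_zero.1 h

theorem exists_factor (M : Submonoid (FreeMonoid A)) (w : FreeMonoid A) (hw : w ∈ M) :
    ∃ l : List (FreeMonoid A), (∀ x ∈ l, x ∈ minGen M) ∧ l.prod = w := by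
  induction hn : w.length using Nat.strong_induction_on generalizing w with
  | _ n ih =>
    by_cases h1 : w = 1
    · exact ⟨[], by simp, by simp [h1]⟩
    · by_cases h2 : ∃ u v : FreeMonoid A, u ∈ M ∧ u ≠ 1 ∧ v ∈ M ∧ v ≠ 1 ∧ w = u * v
      · obtain ⟨u, v, hu, hu1, hv, hv1, rfl⟩ := h2
        have lu : 0 < u.length := by
          rcases Nat.eq_zero_or_pos u.length with h | h
          · exact absurd (eq_one_of_len h) hu1
          · exact h
        have lv : 0 < v.length := by
          rcases Nat.eq_zero_or_pos v.length with h | h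
          · exact absurd (eq_one_of_len h) hv1
          · exact h
        rw [len_mul] at hn
        obtain ⟨l1, h1a, h1b⟩ := ih u.length (by omega) u hu rfl
        obtain ⟨l2, h2a, h2b⟩ := ih v.length (by omega) v hv rfl
        refine ⟨l1 ++ l2, ?_, by simp [h1b, h2b]⟩
        intro x hx
        rw [List.mem_append] at hx
        rcases hx with hx | hx
        · exact h1a x hx
        · exact h2a x hx
      · exact ⟨[w], by simpa using ⟨hw, h1, h2⟩, by simp⟩

theorem prod_mem (M : Submonoid (FreeMonoid A)) (l : List (FreeMonoid A))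
    (h : ∀ x ∈ l, x ∈ minGen M) : l.prod ∈ M :=
  M.list_prod_mem fun x hx => (h x hx).1

theorem stable_of_free {M : Submonoid (FreeMonoid A)} (h : IsFreeSub M) : Stable M := by
  intro u v w hu hv huw hwv
  obtain ⟨l1, h1, p1⟩ := exists_factor M u hu
  obtain ⟨l2, h2, p2⟩ := exists_factor M (w * v) hwv
  obtain ⟨l3, h3, p3⟩ := exists_factor M (u * w) huw
  obtain ⟨l4, h4, p4⟩ := exists_factor M v hv
  have huwv : u * w * v ∈ M := M.mul_mem huw hv
  have e : l1 ++ l2 = l3 ++ l4 := by
    refine (h _ huwv).unique ⟨?_, ?_⟩ ⟨?_, ?_⟩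
    · intro x hx
      rw [List.mem_append] at hx
      exact hx.elim (h1 x) (h2 x)
    · rw [List.prod_append, p1, p2, mul_assoc]
    · intro x hx
      rw [List.mem_append] at hx
      exact hx.elim (h3 x) (h4 x)
    · rw [List.prod_append, p3, p4]
  rw [List.append_eq_append_iff] at e
  rcases e with ⟨c, hc1, hc2⟩ | ⟨c, hc1, hc2⟩
  · have : u * w = u * c.prod := by
      rw [← p3, hc1, List.prod_append, p1]
    have hw : w = c.prod := mul_left_cancel this
    rw [hw]
    apply prod_mem
    intro x hx
    exact h3 x (by rw [hc1]; simp [hx])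
  · have hh : u = u * w * c.prod := by
      rw [← p3, ← List.prod_append, ← hc1, p1]
    have hl := congrArg FreeMonoid.length hh
    rw [len_mul, len_mul] at hl
    have : w = 1 := eq_one_of_len (by omega)
    rw [this]
    exact M.one_mem

theorem unique_of_stable {M : Submonoid (FreeMonoid A)} (h : Stable M) :
    ∀ l1 l2 : List (FreeMonoid A), (∀ x ∈ l1, x ∈ minGen M) → (∀ x ∈ l2, x ∈ minGen M) →
      l1.prod = l2.prod → l1 = l2 := by
  -- an auxiliary statement for one ordering of the first factors
  have key : ∀ x y p q : FreeMonoid A, x ∈ minGen M → y ∈ minGen M → p ∈ M → q ∈ M →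
      x * p = y * q → x.length ≤ y.length → x = y := by
    intro x y p q hx hy hp hq hxy hlen
    have h1 : FreeMonoid.toList x ++ FreeMonoid.toList p =
        FreeMonoid.toList y ++ FreeMonoid.toList q := by
      have := congrArg FreeMonoid.toList hxy
      simpa using this
    rw [List.append_eq_append_iff] at h1
    have h2 : ∃ c : FreeMonoid A, y = x * c ∧ p = c * q := by
      rcases h1 with ⟨c, hc1, hc2⟩ | ⟨c, hc1, hc2⟩
      · exact ⟨FreeMonoid.ofList c, hc1, hc2⟩
      · have hl := congrArg List.length hc1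
        rw [List.length_append] at hl
        have hl' : x.length = y.length + c.length := hl
        have hc : c = [] := List.eq_nil_of_length_eq_zero (by omega)
        subst hc
        refine ⟨1, ?_, ?_⟩
        · rw [mul_one]
          have : FreeMonoid.toList x = FreeMonoid.toList y := by simpa using hc1
          exact (FreeMonoid.toList.injective this).symm
        · rw [one_mul]
          have : FreeMonoid.toList q = FreeMonoid.toList p := by simpa using hc2
          exact (FreeMonoid.toList.injective this).symm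
    obtain ⟨c, rfl, rfl⟩ := h2
    have hc : c ∈ M := h x q c hx.1 hq hy.1 hp
    by_contra hne
    have hc1 : c ≠ 1 := by
      rintro rfl
      exact hne (by simp)
    exact hy.2.2 ⟨x, c, hx.1, hx.2.1, hc, hc1, rfl⟩
  intro l1
  induction l1 with
  | nil =>
    intro l2 _ h2 he
    rcases l2 with _ | ⟨y, l2⟩
    · rfl
    · exfalso
      rw [List.prod_nil, List.prod_cons] at he
      have hl := congrArg FreeMonoid.length he
      rw [len_mul, FreeMonoid.length_one] at hl
      have hy := h2 y (by simp)
      exact hy.2.1 (eq_one_of_len (by omega))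
  | cons x l1 ih =>
    intro l2 h1 h2 he
    rcases l2 with _ | ⟨y, l2⟩
    · exfalso
      rw [List.prod_nil, List.prod_cons] at he
      have hl := congrArg FreeMonoid.length he
      rw [len_mul, FreeMonoid.length_one] at hl
      have hx := h1 x (by simp)
      exact hx.2.1 (eq_one_of_len (by omega))
    · rw [List.prod_cons, List.prod_cons] at he
      have hx := h1 x (by simp)
      have hy := h2 y (by simp)
      have h1' : ∀ z ∈ l1, z ∈ minGen M := fun z hz => h1 z (by simp [hz])
      have h2' : ∀ z ∈ l2, z ∈ minGen M := fun z hz => h2 z (by simp [hz])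
      have hp := prod_mem M l1 h1'
      have hq := prod_mem M l2 h2'
      have hxy : x = y := by
        rcases le_total x.length y.length with hl | hl
        · exact key x y _ _ hx hy hp hq he hl
        · exact (key y x _ _ hy hx hq hp he.symm hl).symm
      subst hxy
      rw [ih l2 h1' h2' (mul_left_cancel he)]

theorem free_iff_stable {M : Submonoid (FreeMonoid A)} : IsFreeSub M ↔ Stable M := by
  constructor
  · exact stable_of_free
  · intro h w hw
    obtain ⟨l, hl, hp⟩ := exists_factor M w hw
    refine ⟨l, ⟨hl, hp⟩, ?_⟩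
    rintro l' ⟨hl', hp'⟩
    exact unique_of_stable h l' l hl' hl (by rw [hp, hp'])

/-- Every free submonoid inside `L` lies in an `L`-maximal free submonoid. -/
theorem exists_max (L : Language A) (M : Submonoid (FreeMonoid A)) (hM : IsFreeSub M)
    (hML : Inside M L) : ∃ N, M ≤ N ∧ IsMaxFree L N := by
  obtain ⟨N, hMN, hN⟩ := zorn_le_nonempty₀
    {N : Submonoid (FreeMonoid A) | Stable N ∧ Inside N L} (by
      intro c hc hchain y hy
      have hdir : DirectedOn (· ≤ ·) c := hchain.directedOn
      have hne : c.Nonempty := ⟨y, hy⟩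
      refine ⟨sSup c, ⟨?_, ?_⟩, fun z hz => le_sSup hz⟩
      · intro u v w hu hv huw hwv
        rw [Submonoid.mem_sSup_of_directedOn hne hdir] at hu hv huw hwv ⊢
        obtain ⟨M1, hM1, hu⟩ := hu
        obtain ⟨M2, hM2, hv⟩ := hv
        obtain ⟨M3, hM3, huw⟩ := huw
        obtain ⟨M4, hM4, hwv⟩ := hwv
        obtain ⟨P, hP, l1, l2⟩ := hdir M1 hM1 M2 hM2
        obtain ⟨Q, hQ, l3, l4⟩ := hdir M3 hM3 M4 hM4
        obtain ⟨R, hR, l5, l6⟩ := hdir P hP Q hQ
        exact ⟨R, hR, (hc hR).1 u v w (l5 (l1 hu)) (l5 (l2 hv)) (l6 (l3 huw)) (l6 (l4 hwv))⟩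
      · intro w hw
        rw [Submonoid.mem_sSup_of_directedOn hne hdir] at hw
        obtain ⟨M1, hM1, hw⟩ := hw
        exact (hc hM1).2 w hw) M ⟨free_iff_stable.1 hM, hML⟩
  refine ⟨N, hMN, free_iff_stable.2 hN.prop.1, hN.prop.2, ?_⟩
  intro P hP hNP hPL
  exact le_antisymm (hN.le_of_ge ⟨free_iff_stable.1 hP, hPL⟩ hNP) hNP

end Stable

/-- One step of the automaton for words without a factor in `b c⁺ a`
(`a = 0`, `b = 1`, `c = 2`; state `1`: just read `b`; state `2`: just read `b c⁺`;
state `3`: dead; state `0`: otherwise). -/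
def st : Fin 4 → Fin 3 → Fin 4
  | 0, 0 => 0
  | 0, 1 => 1
  | 0, 2 => 0
  | 1, 0 => 0
  | 1, 1 => 1
  | 1, 2 => 2
  | 2, 0 => 3
  | 2, 1 => 1
  | 2, 2 => 2
  | 3, _ => 3

/-- The automaton. -/
def dfa : DFA (Fin 3) (Fin 4) where
  step := st
  start := 0
  accept := {s | s ≠ 3}

theorem mono (w : List (Fin 3)) : ∀ s t : Fin 4, s ≤ t →
    dfa.evalFrom s w ≤ dfa.evalFrom t w := by
  induction w with
  | nil => intro s t h; simpa using h
  | cons x w ih =>
    intro s t h
    rw [DFA.evalFrom_cons, DFA.evalFrom_cons]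
    apply ih
    show st s x ≤ st t x
    revert s t x
    decide

theorem dead (w : List (Fin 3)) : dfa.evalFrom 3 w = 3 := by
  induction w with
  | nil => rfl
  | cons x w ih =>
    rw [DFA.evalFrom_cons]
    show dfa.evalFrom (st 3 x) w = 3
    have : st 3 x = 3 := by revert x; decide
    rw [this, ih]

theorem mem_acc (w : List (Fin 3)) : w ∈ dfa.accepts ↔ dfa.evalFrom 0 w ≠ 3 := Iff.rfl

theorem factorial_L : Factorial dfa.accepts := by
  intro u v w h
  rw [mem_acc] at h ⊢
  intro h3
  apply h
  rw [DFA.evalFrom_of_append, DFA.evalFrom_of_append]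
  have h1 : dfa.evalFrom 0 v ≤ dfa.evalFrom (dfa.evalFrom 0 u) v := mono v _ _ (Fin.zero_le _)
  rw [h3] at h1
  have h2 : dfa.evalFrom (dfa.evalFrom 0 u) v = 3 := by
    have := Fin.le_last (dfa.evalFrom (dfa.evalFrom 0 u) v)
    exact le_antisymm this h1
  rw [h2, dead]

theorem transitive_L : Transitive dfa.accepts := by
  intro u hu v hv
  rw [mem_acc] at hu hv
  refine ⟨[1, 0], ?_⟩
  rw [mem_acc, DFA.evalFrom_of_append, DFA.evalFrom_of_append]
  have : dfa.evalFrom (dfa.evalFrom 0 u) [1, 0] = 0 := by
    show st (st (dfa.evalFrom 0 u) 1) 0 = 0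
    revert hu
    generalize dfa.evalFrom 0 u = s
    revert s
    decide
  rw [this]
  exact hv

/-- The free submonoid generated by `a cⁿ⁺¹` and `cⁿ⁺¹ b`. -/
def NN (n : ℕ) : Submonoid (FreeMonoid (Fin 3)) :=
  Submonoid.closure {FreeMonoid.ofList (0 :: List.replicate (n + 1) 2),
    FreeMonoid.ofList (List.replicate (n + 1) 2 ++ [1])}

theorem eval_c0 (n : ℕ) : dfa.evalFrom 0 (List.replicate n 2) = 0 := by
  induction n with
  | zero => rfl
  | succ n ih =>
    rw [List.replicate_succ, DFA.evalFrom_cons]
    exact ih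

theorem eval_c2 (n : ℕ) : dfa.evalFrom 2 (List.replicate n 2) = 2 := by
  induction n with
  | zero => rfl
  | succ n ih =>
    rw [List.replicate_succ, DFA.evalFrom_cons]
    exact ih

theorem eval_c1 (n : ℕ) : dfa.evalFrom 1 (List.replicate (n + 1) 2) = 2 := by
  rw [List.replicate_succ, DFA.evalFrom_cons]
  exact eval_c2 n

theorem inside_NN (n : ℕ) : Inside (NN n) dfa.accepts := by
  have key : ∀ w ∈ NN n, ∀ s : Fin 4, (s = 0 ∨ s = 1) →
      (dfa.evalFrom s (FreeMonoid.toList w) = 0 ∨ dfa.evalFrom s (FreeMonoid.toList w) = 1) := by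
    intro w hw
    refine Submonoid.closure_induction (motive := fun w _ => ∀ s : Fin 4, (s = 0 ∨ s = 1) →
      (dfa.evalFrom s (FreeMonoid.toList w) = 0 ∨ dfa.evalFrom s (FreeMonoid.toList w) = 1))
      ?_ ?_ ?_ hw
    · rintro x (rfl | rfl) s hs
      · left
        rw [FreeMonoid.toList_ofList, DFA.evalFrom_cons]
        have : dfa.step s 0 = 0 := by
          rcases hs with rfl | rfl <;> rfl
        rw [this, eval_c0]
      · right
        rw [FreeMonoid.toList_ofList, DFA.evalFrom_of_append]
        rcases hs with rfl | rfl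
        · rw [eval_c0]; rfl
        · rw [eval_c1]; rfl
    · intro s hs
      simpa using hs
    · intro x y _ _ hx hy s hs
      rw [FreeMonoid.toList_mul, DFA.evalFrom_of_append]
      exact hy _ (hx s hs)
  intro w hw
  rw [mem_acc]
  rcases key w hw 0 (Or.inl rfl) with h | h <;> rw [h] <;> decide

theorem NN_cases (n : ℕ) (w : FreeMonoid (Fin 3)) (hw : w ∈ NN n) :
    w = 1 ∨ (∃ m ∈ NN n, w = FreeMonoid.ofList (0 :: List.replicate (n + 1) 2) * m) ∨
      (∃ m ∈ NN n, w = FreeMonoid.ofList (List.replicate (n + 1) 2 ++ [1]) * m) := by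
  refine Submonoid.closure_induction_left (motive := fun w _ => w = 1 ∨
    (∃ m ∈ NN n, w = FreeMonoid.ofList (0 :: List.replicate (n + 1) 2) * m) ∨
      (∃ m ∈ NN n, w = FreeMonoid.ofList (List.replicate (n + 1) 2 ++ [1]) * m)) ?_ ?_ hw
  · exact Or.inl rfl
  · rintro x (rfl | rfl) y hy _
    · exact Or.inr (Or.inl ⟨y, hy, rfl⟩)
    · exact Or.inr (Or.inr ⟨y, hy, rfl⟩)

theorem NN_unitary (n : ℕ) (u : FreeMonoid (Fin 3)) (hu : u ∈ NN n) :
    ∀ w, u * w ∈ NN n → w ∈ NN n := by
  refine Submonoid.closure_induction_left (motive := fun u _ => ∀ w, u * w ∈ NN n → w ∈ NN n)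
    ?_ ?_ hu
  · intro w hw
    rwa [one_mul] at hw
  · rintro x (rfl | rfl) y hy ih w hw
    · rcases NN_cases n _ hw with h | ⟨m, hm, h⟩ | ⟨m, hm, h⟩
      · exfalso
        have := congrArg FreeMonoid.toList h
        simp at this
      · rw [mul_assoc] at h
        apply ih
        rw [mul_left_cancel h]
        exact hm
      · exfalso
        have := congrArg FreeMonoid.toList h
        simp [List.replicate_succ] at this
    · rcases NN_cases n _ hw with h | ⟨m, hm, h⟩ | ⟨m, hm, h⟩
      · exfalso
        have := congrArg FreeMonoid.toList h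
        simp at this
      · exfalso
        have := congrArg FreeMonoid.toList h
        simp [List.replicate_succ] at this
      · rw [mul_assoc] at h
        apply ih
        rw [mul_left_cancel h]
        exact hm

theorem free_NN (n : ℕ) : IsFreeSub (NN n) := by
  rw [free_iff_stable]
  intro u v w hu _ huw _
  exact NN_unitary n u hu w huw

/-- No free submonoid inside the language contains two of the submonoids `NN n`. -/
theorem incompatible {n m : ℕ} (hnm : n < m) (N : Submonoid (FreeMonoid (Fin 3)))
    (hN : IsFreeSub N) (hNL : Inside N dfa.accepts) (h1 : NN n ≤ N) (h2 : NN m ≤ N) : False := by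
  obtain ⟨d, rfl⟩ : ∃ d, m = n + 1 + d := ⟨m - n - 1, by omega⟩
  have hst := free_iff_stable.1 hN
  set u : FreeMonoid (Fin 3) := FreeMonoid.ofList (0 :: List.replicate (n + 1) 2) with hu
  set v : FreeMonoid (Fin 3) := FreeMonoid.ofList (List.replicate (n + 1) 2 ++ [1]) with hv
  set w : FreeMonoid (Fin 3) := FreeMonoid.ofList (List.replicate (d + 1) 2) with hw
  have hun : u ∈ N := h1 (Submonoid.subset_closure (by simp [hu]))
  have hvn : v ∈ N := h1 (Submonoid.subset_closure (by simp [hv]))
  have huw : u * w ∈ N := by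
    apply h2
    apply Submonoid.subset_closure
    left
    rw [hu, hw, ← FreeMonoid.ofList_append, List.cons_append, ← List.replicate_add]
    congr 3
  have hwv : w * v ∈ N := by
    apply h2
    apply Submonoid.subset_closure
    right
    rw [Set.mem_singleton_iff, hv, hw, ← FreeMonoid.ofList_append, ← List.append_assoc,
      ← List.replicate_add]
    congr 3
    omega
  have hwN : w ∈ N := hst u v w hun hvn huw hwv
  have hbad : v * w * u ∈ N := N.mul_mem (N.mul_mem hvn hwN) hun
  have := hNL _ hbad
  rw [mem_acc] at this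
  apply this
  rw [FreeMonoid.toList_mul, FreeMonoid.toList_mul, DFA.evalFrom_of_append,
    DFA.evalFrom_of_append, hu, hv, hw, FreeMonoid.toList_ofList, FreeMonoid.toList_ofList,
    FreeMonoid.toList_ofList, DFA.evalFrom_of_append, eval_c0]
  have e1 : dfa.evalFrom 0 [1] = 1 := rfl
  rw [e1, eval_c1, DFA.evalFrom_cons]
  exact dead _

/-- There is a factorial, transitive, rational language (over a three-letter alphabet)
containing infinitely many maximal free submonoids. -/
theorem result : ∃ L : Language (Fin 3), Factorial L ∧ Transitive L ∧ L.IsRegular ∧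
    {M : Submonoid (FreeMonoid (Fin 3)) | IsMaxFree L M}.Infinite := by
  refine ⟨dfa.accepts, factorial_L, transitive_L, ⟨Fin 4, inferInstance, dfa, rfl⟩, ?_⟩
  choose F hF1 hF2 using fun n => exists_max dfa.accepts (NN n) (free_NN n) (inside_NN n)
  refine Set.infinite_of_injective_forall_mem (f := F) ?_ hF2
  intro n m h
  by_contra hne
  rcases Nat.lt_or_gt_of_ne hne with hlt | hlt
  · refine incompatible hlt (F n) (hF2 n).1 (hF2 n).2.1 (hF1 n) ?_
    rw [h]; exact hF1 m
  · refine incompatible hlt (F n) (hF2 n).1 (hF2 n).2.1 ?_ (hF1 n)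
    rw [h]; exact hF1 m

end Pool.Agent.Results.MP_df6457_lc.InfManyMaxFree
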